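import Pool.Agent.Lib.MP_fdcc6d_al.ExtInj

set_option autoImplicit false

namespace Pool.Agent.Results.MP_fdcc6d_al.NotFree

/-- **The Huneke–Wiegand conjecture is false.**  There are a one-dimensional Noetherian local
domain `R` which is Gorenstein (its injective dimension as a module over itself is at most one)
and a finitely generated torsionfree `R`-module `M` with `Ext^1_R(M, M) = 0` which is not free.
All notions are those of Mathlib. -/
theorem result :
    ∃ (R : Type) (_ : CommRing R) (_ : IsDomain R) (_ : IsNoetherianRing R) (_ : IsLocalRing R),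
      ringKrullDim R = 1 ∧
      CategoryTheory.HasInjectiveDimensionLE (ModuleCat.of R R) 1 ∧
      ∃ (M : Type) (_ : AddCommGroup M) (_ : Module R M),
        Module.Finite R M ∧
        (∀ (r : R) (m : M), r • m = 0 → r = 0 ∨ m = 0) ∧
        Subsingleton (CategoryTheory.Abelian.Ext (ModuleCat.of R M) (ModuleCat.of R M) 1) ∧
        ¬ Module.Free R M := by
  have h := Pool.Agent.HunekeWiegand.data
  exact ⟨Pool.Agent.HunekeWiegand.R h, inferInstance, inferInstance, inferInstance, inferInstance,
    Pool.Agent.HunekeWiegand.dim_one h, Pool.Agent.HunekeWiegand.injDim_le_one h,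
    Pool.Agent.HunekeWiegand.M h, inferInstance, inferInstance, inferInstance,
    Pool.Agent.HunekeWiegand.torsionfree h,
    Pool.Agent.HunekeWiegand.ext_one_subsingleton _ _ _
      (fun E _ _ f g hf hg hfg => Pool.Agent.HunekeWiegand.split h E f g hf hg hfg),
    Pool.Agent.HunekeWiegand.not_free h⟩

end Pool.Agent.Results.MP_fdcc6d_al.NotFree
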